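import Pool.Agent.R852.BM.PJet

set_option autoImplicit false

/-! # The motivic monodromy conjecture at points for `h(x) ∏_t (∑_j y_{t,j} f_{t,j}(x)) ^ a_t`

Here `h` and the `f_{t,j}` are arbitrary polynomials in two variables `x₁, x₂`, or forms in three
variables, the `y_{t,j}` are further variables, separate for each `t` (the index set of the `t` is
finite and not empty), and `a_t ≥ 1`. These polynomials `F = h ∏_t F_t ^ a_t` are not reduced, if
some `a_t > 1`, and the zero loci of `h` and of the `F_t` have singularities over common points, in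
general of arbitrary dimension.

Let `J = h ∏_t (f_{t,j})_j ^ a_t`. The local motivic zeta function
`Z_{F,x} = ∑_{m ≥ 1} [X_{m,1,x}] L^(-m N) T^m` at a point `x = (P, 0)` is a constant times the one of `J`
at `P`, times `∏_t T^(a_t) / (1 - L⁻¹ T^(a_t))`, if the greatest common divisor of the `a_t` is `1`, or
if `h` is constant; the one of `J` is computed by blowing up points of the plane (of the projective
plane, for forms in three variables); see `PlaneJetAt` and `ConeJetAt` (in
`Pool.Agent.R852.BM.PJet`), and `MotLocal` and `ConeMot` (in `Pool.Agent.W574.MO`).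

The proof:

* `locEq_strong`: a functional equation of `F`, with `b`, gives a functional equation of the ideal
  `J` with `b'`, where `b(s) = b'(s) ∏_t ∏_{1 ≤ i ≤ a_t} (a_t s + i)` (for `h = 1`, one `t` and `a_t = 1`
  this is one direction of a theorem of Mustata, 2019);
* `plane_mot`, `point_mot`: the motivic zeta function of an ideal of `ℂ[x₁, x₂]` lies in the ring of
  the series whose denominators belong to roots of `b'`;
* for cones, the root `-3/d` comes from a generic residue computation at the exceptional divisor
  over the origin, if three of the generators of `J` are algebraically independent. -/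

namespace Pool.Agent.Results.MP_b91a16_ag.PowersOfForms

open MvPolynomial Pool.Agent.W574.MO Pool.Agent.W574.CN Pool.Agent.H628R4.TP Pool.Agent.R852.BM
open Pool.Agent.R852.PP (form)

/-- **The motivic monodromy conjecture at points for the polynomials
`F = h(x) ∏_t (∑_j y_{t,j} f_{t,j}(x)) ^ a_t`** (`form a h f`), `a_t ≥ 1`. `M` is a commutative ring with a
unit `L`, for example `M = K₀(Var_ℂ)[1/L]`. `IsBFunction F b` says that
`b(s) F ^ s = P(s) F ^ (s + 1)` with `P(s)` in the Weyl algebra; the Bernstein-Sato polynomial `b_F` is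
such a polynomial `b`.

(1) `h` and the `f_{t,j}` are polynomials in two variables, and the greatest common divisor of the
`a_t` is `1`, or `h` is constant. Let `Z = Z_{F,x}` be the local motivic zeta function of `F` at a point
`x = (P, 0)`, `P ∈ ℂ ^ 2`. Then `Z` lies in the ring `M[T][(1 - L⁻ⁿ Tᵃ)⁻¹]`, where the pairs `a, n ≥ 1`
are such that `-n/a` is a root of `b`.

(2) `h` and the `f_{t,j}` are forms in three variables of the degrees `d₀` and `d_t`, with the same
condition on the `a_t` and `h`. Then the same holds for the local motivic zeta function at the origin,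
where the pairs `a, n` with `-n/a = -3/d`, `d = d₀ + ∑_t a_t d_t`, are allowed too if all the Jacobian
determinants of three generators of the ideal `J = h ∏_t (f_{t,j})_j ^ a_t` vanish (`ConePair`), that
is, if no three of the products of `h` and of `a_t` of the `f_{t,j}`, for each `t`, are algebraically
independent. -/
theorem result {M : Type} [CommRing M] (L : Mˣ) {τ : Type} [Fintype τ] [DecidableEq τ]
    [Nonempty τ] {κ : τ → Type} [∀ t, Fintype (κ t)] [∀ t, DecidableEq (κ t)] (a : τ → ℕ)
    (ha : ∀ t, 1 ≤ a t) :
    (∀ (h : MvPolynomial (Fin 2) ℂ) (f : (t : τ) → κ t → MvPolynomial (Fin 2) ℂ), h ≠ 0 →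
      (∀ t, ∃ j, f t j ≠ 0) → ∀ b : Polynomial ℂ, IsBFunction (form a h f) b →
        ∀ (P : Fin 2 → ℂ) (Z : PowerSeries M), PlaneJetAt L a h f P Z →
          Z ∈ DenRing L (RootPair b)) ∧
    (∀ (h : MvPolynomial (Fin 3) ℂ) (f : (t : τ) → κ t → MvPolynomial (Fin 3) ℂ) (d₀ : ℕ)
      (d : τ → ℕ), h ≠ 0 → (∀ t, ∃ j, f t j ≠ 0) → h.IsHomogeneous d₀ →
      (∀ t j, (f t j).IsHomogeneous (d t)) → 0 < degJ a d₀ d →
      ∀ b : Polynomial ℂ, IsBFunction (form a h f) b → ∀ Z : PowerSeries M,
        ConeJetAt L a h f (degJ a d₀ d) Z →
          Z ∈ DenRing L (ConePair (Pool.Agent.R852.PP.gen a h f) (degJ a d₀ d) b)) := by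
  refine ⟨fun h f hh hf b hb P Z hZ => plane_jet_at L a h hh f hf ha b hb P Z hZ, ?_⟩
  intro h f d₀ d hh0 hf0 hh hf hd b hb Z hZ
  exact cone_jet_at L a h f d₀ d hh0 hf0 ha hh hf hd b hb Z hZ

end Pool.Agent.Results.MP_b91a16_ag.PowersOfForms
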